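import Pool.Agent.Lib.MP_1d2f05_al.Top

set_option autoImplicit false

namespace Pool.Agent.Results.MP_1d2f05_al.Elementary

open Pool.Agent.Lib.MP_1d2f05_al

theorem result (G H : Subgroup ((ℕ → Bool) ≃ₜ (ℕ → Bool))) (U : Set (ℕ → Bool))
    (hmin : Minimal G) (hfull : IsFull G) (hU : IsClopen U) (hne : U.Nonempty)
    (hH : IsRist G U H) :
    (Gen Omits H → (¬ HasMean G → ¬ HasMean H) ∧ Gen Omits G) ∧
    (Gen FinAb H → Gen Omits H ∧ Gen FinAb G ∧ HasMean G) := by
  refine ⟨fun h => ⟨fun h1 h2 => h1 (transfer cls_mean hmin hfull hU hne hH h h2),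
    transfer (cls_gen omits_fin) hmin hfull hU hne hH h h⟩, fun h => ?_⟩
  have := transfer (cls_gen fun _ _ => Or.inl) hmin hfull hU hne hH (omits_ea h) h
  exact ⟨omits_ea h, this, hasMean_ea this⟩

end Pool.Agent.Results.MP_1d2f05_al.Elementary
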